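import Mathlib

/-! The bound on the ratio at a maximiser: vector algebra. -/

namespace Pool.Agent.MP_3ee8cb_gt.DRK

open Real
open scoped RealInnerProductSpace

variable {E : Type*} [NormedAddCommGroup E] [InnerProductSpace ℝ E]

namespace CBx

theorem perp (a b : E) {w : E} (hw : ‖w‖ = 1) :
    ⟪a - ⟪a, w⟫ • w, b - ⟪b, w⟫ • w⟫ = ⟪a, b⟫ - ⟪a, w⟫ * ⟪b, w⟫ := by
  simp only [inner_sub_left, inner_sub_right, real_inner_smul_left, real_inner_smul_right,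
    real_inner_self_eq_norm_sq, hw, real_inner_comm w]
  ring

theorem psq (a : E) {w : E} (hw : ‖w‖ = 1) : ‖a - ⟪a, w⟫ • w‖ ^ 2 = ‖a‖ ^ 2 - ⟪a, w⟫ ^ 2 := by
  rw [← real_inner_self_eq_norm_sq, perp a a hw, real_inner_self_eq_norm_sq, sq ⟪a, w⟫]

theorem sq1 (s : ℝ) : 0 < √(1 + s ^ 2) ∧ √(1 + s ^ 2) ^ 2 = 1 + s ^ 2 :=
  ⟨by positivity, sq_sqrt (by positivity)⟩

theorem core {a a₀ w : E} {X B g S : ℝ} (hw : ‖w‖ = 1) (hg : 1 ≤ g) (hS : ‖a₀‖ ≤ S)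
    (hX : ‖a‖ ≤ X) (hB : 0 ≤ B)
    (H : X * √(1 + ‖a₀‖ ^ 2) - (⟪a, a₀⟫ - ⟪a, w⟫ * ⟪a₀, w⟫) ≤
      B * (g * √(1 + ⟪a₀, w⟫ ^ 2) - (g - 1) * ⟪a₀, w⟫)) :
    X ≤ (g + (g - 1) ^ 2 / (2 * g)) * (√(1 + S ^ 2) + S) * B := by
  have h1 := (abs_le.1 (abs_real_inner_le_norm (a - ⟪a, w⟫ • w) (a₀ - ⟪a₀, w⟫ • w))).2
  rw [perp a a₀ hw] at h1
  have h2 := psq a hw
  have h3 := psq a₀ hw
  have h4 : √(1 + ‖a₀‖ ^ 2) ≤ √(1 + S ^ 2) := by gcongr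
  obtain ⟨x0, x1⟩ := sq1 ‖a₀‖
  obtain ⟨b0, b1⟩ := sq1 ⟪a₀, w⟫
  have p0 := norm_nonneg (a - ⟪a, w⟫ • w)
  have q0 := norm_nonneg (a₀ - ⟪a₀, w⟫ • w)
  have p1 : ‖a - ⟪a, w⟫ • w‖ ≤ X :=
    (abs_le_of_sq_le_sq' (by nlinarith [sq_nonneg ⟪a, w⟫]) (norm_nonneg a)).2.trans hX
  have q1 : ‖a₀ - ⟪a₀, w⟫ • w‖ ≤ S :=
    (abs_le_of_sq_le_sq' (by nlinarith [sq_nonneg ⟪a₀, w⟫]) (norm_nonneg a₀)).2.trans hS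
  generalize ‖a - ⟪a, w⟫ • w‖ = p at *
  generalize ‖a₀ - ⟪a₀, w⟫ • w‖ = q at *
  generalize √(1 + ‖a₀‖ ^ 2) = X₀ at *
  generalize √(1 + ⟪a₀, w⟫ ^ 2) = B₀ at *
  generalize ⟪a₀, w⟫ = s at *
  obtain ⟨k, k0, k1⟩ : ∃ k, (g - 1) ^ 2 / (2 * g) = k ∧ k * (2 * g) = (g - 1) ^ 2 :=
    ⟨_, rfl, div_mul_cancel₀ _ (by positivity)⟩
  have k2 : 0 ≤ k := by rw [← k0]; positivity
  rw [k0]
  have k3 : -((g - 1) * s) ≤ k + g * s ^ 2 / 2 :=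
    le_of_mul_le_mul_right (by nlinarith [sq_nonneg (g - 1 + g * s)]) (by positivity : 0 < 2 * g)
  have k4 : g * B₀ - (g - 1) * s ≤ (g + k) * B₀ ^ 2 := by
    nlinarith [mul_nonneg k2 (sq_nonneg s),
      mul_nonneg (by linarith : 0 ≤ g) (sq_nonneg (B₀ - 1))]
  have k5 : X * (X₀ - q) ≤ B * ((g + k) * B₀ ^ 2) := by
    nlinarith [mul_le_mul_of_nonneg_left k4 hB, mul_le_mul_of_nonneg_right p1 q0]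
  have k6 : X * B₀ ^ 2 ≤ (g + k) * (X₀ + q) * B * B₀ ^ 2 := by
    have e : B₀ ^ 2 = (X₀ - q) * (X₀ + q) := by linarith
    have := mul_le_mul_of_nonneg_right k5 (by linarith : 0 ≤ X₀ + q)
    rw [mul_assoc, ← e] at this
    linarith
  refine (le_of_mul_le_mul_right k6 (by positivity)).trans ?_
  gcongr

end CBx

open CBx

/-- Finite maximiser. -/
theorem cbF {a a₀ w : E} {g S : ℝ} (hw : ‖w‖ = 1) (hg : 1 ≤ g) (hS : ‖a₀‖ ≤ S)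
    (H : √(1 + ‖a‖ ^ 2) * √(1 + ‖a₀‖ ^ 2) - ⟪a, a₀⟫ ≤
      cosh (arsinh ⟪a, w⟫ - arsinh ⟪a₀, w⟫ + log g)) :
    √(1 + ‖a‖ ^ 2) ≤ (g + (g - 1) ^ 2 / (2 * g)) * (√(1 + S ^ 2) + S) * √(1 + ⟪a, w⟫ ^ 2) := by
  refine core hw hg hS (le_sqrt_of_sq_le (by linarith)) (sqrt_nonneg _) ?_
  have g0 : 0 < g := by linarith
  rw [cosh_add, cosh_sub, sinh_sub, cosh_arsinh, cosh_arsinh, sinh_arsinh, sinh_arsinh,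
    cosh_log g0, sinh_log g0] at H
  have h1 : ⟪a, w⟫ ≤ √(1 + ⟪a, w⟫ ^ 2) := le_sqrt_of_sq_le (by linarith)
  have h2 : ⟪a₀, w⟫ ≤ √(1 + ⟪a₀, w⟫ ^ 2) := le_sqrt_of_sq_le (by linarith)
  have h3 := sqrt_nonneg (1 + ⟪a₀, w⟫ ^ 2)
  have h4 : g⁻¹ ≤ 1 := inv_le_one_of_one_le₀ hg
  have h5 : 2 ≤ g + g⁻¹ := by nlinarith [mul_inv_cancel₀ g0.ne', inv_pos.2 g0]
  generalize √(1 + ⟪a, w⟫ ^ 2) = B at *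
  generalize √(1 + ⟪a₀, w⟫ ^ 2) = B₀ at *
  have h6 : 0 ≤ (g - g⁻¹) * B₀ - (g + g⁻¹ - 2) * ⟪a₀, w⟫ := by
    nlinarith [mul_le_mul_of_nonneg_left h2 (sub_nonneg.2 h5), mul_nonneg h3 (sub_nonneg.2 h4)]
  nlinarith [mul_nonneg (sub_nonneg.2 h1) h6]

/-- Infinite maximiser. -/
theorem cbI {ν a₀ w : E} {g S : ℝ} (hw : ‖w‖ = 1) (hν : ‖ν‖ = 1) (hg : 1 ≤ g) (hS : ‖a₀‖ ≤ S)
    (ht : 0 ≤ ⟪ν, w⟫)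
    (H : (√(1 + ‖a₀‖ ^ 2) - ⟪ν, a₀⟫) * exp (arsinh ⟪a₀, w⟫) ≤ g * ⟪ν, w⟫) :
    1 ≤ (g + (g - 1) ^ 2 / (2 * g)) * (√(1 + S ^ 2) + S) * ⟪ν, w⟫ := by
  refine core hw hg hS hν.le ht ?_
  rw [exp_arsinh] at H
  obtain ⟨-, b1⟩ := sq1 ⟪a₀, w⟫
  have h2 : ⟪a₀, w⟫ ≤ √(1 + ⟪a₀, w⟫ ^ 2) := le_sqrt_of_sq_le (by linarith)
  have := mul_le_mul_of_nonneg_right H (sub_nonneg.2 h2)
  have e : (⟪a₀, w⟫ + √(1 + ⟪a₀, w⟫ ^ 2)) * (√(1 + ⟪a₀, w⟫ ^ 2) - ⟪a₀, w⟫) = 1 := by linarith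
  rw [mul_assoc, e] at this
  linarith

/-- A null vector against a unit timelike vector. -/
theorem null {ν a₀ w : E} (hw : ‖w‖ = 1) (hν : ‖ν‖ = 1) :
    ⟪ν, w⟫ ≤ (√(1 + ‖a₀‖ ^ 2) - ⟪ν, a₀⟫) * exp (arsinh ⟪a₀, w⟫) := by
  have h1 := (abs_le.1 (abs_real_inner_le_norm (ν - ⟪ν, w⟫ • w) (a₀ - ⟪a₀, w⟫ • w))).2
  rw [perp ν a₀ hw] at h1
  have h2 := psq ν hw
  have h3 := psq a₀ hw
  rw [hν] at h2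
  rw [exp_arsinh]
  obtain ⟨x0, x1⟩ := sq1 ‖a₀‖
  obtain ⟨b0, b1⟩ := sq1 ⟪a₀, w⟫
  have h4 : -⟪a₀, w⟫ ≤ √(1 + ⟪a₀, w⟫ ^ 2) := le_sqrt_of_sq_le (by linarith)
  generalize ‖ν - ⟪ν, w⟫ • w‖ = p at *
  generalize ‖a₀ - ⟪a₀, w⟫ • w‖ = q at *
  generalize √(1 + ‖a₀‖ ^ 2) = X at *
  generalize √(1 + ⟪a₀, w⟫ ^ 2) = B at *
  generalize ⟪a₀, w⟫ = s at *
  generalize ⟪ν, w⟫ = t at *
  have h5 : p * q + t * B ≤ X := (abs_le_of_sq_le_sq' (by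
    have : X ^ 2 = (p ^ 2 + t ^ 2) * (q ^ 2 + B ^ 2) := by
      rw [show p ^ 2 + t ^ 2 = 1 by linarith]; linarith
    nlinarith [sq_nonneg (p * B - t * q)]) x0.le).2
  have h6 := mul_le_mul_of_nonneg_right (by linarith : t * (B - s) ≤ X - ⟪ν, a₀⟫)
    (by linarith : 0 ≤ s + B)
  rwa [mul_assoc, show (B - s) * (s + B) = 1 by linarith, mul_one] at h6

end Pool.Agent.MP_3ee8cb_gt.DRK
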