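import Pool.Agent.MP_3ee8cb_gt.DQ.Spec
import Pool.Agent.MP_3ee8cb_gt.PX.B1
import Pool.Agent.MP_3ee8cb_gt.DNWI.Base

/-! The largest Busemann function over a point, and signed distances to hyperplanes. -/

namespace Pool.Agent.MP_3ee8cb_gt.DRK

open Set Filter Topology Real
open scoped RealInnerProductSpace
open DN (Dim dm)

variable [Dim]

open DN DZ DQ
open PX (be)

noncomputable section

/-- The largest value at `y` of the functions over `x`. -/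
def Dd {P : Type} (A : Fam P) (x y : V) : ℝ := sSup ((fun p => A.β p y) '' {p | A.pr p = x})

variable {m : MF} {lg : V × V → V} {dX : V → V → ℝ} {P : Type} [TopologicalSpace P] {A : Fam P}

theorem ex_unit : ∃ w : V, ‖w‖ = 1 := exists_norm_eq V zero_le_one

/-- Polar form of `lg`. -/
theorem pol (yw : YW m lg) (z y : V) : ∃ e : V, ‖e‖ = 1 ∧ lg (z, y) = ‖lg (z, y)‖ • e ∧
    PX.Sh (lg (z, y)) = sinh ‖lg (z, y)‖ • e ∧ (m.Z ‖lg (z, y)‖ (z, e)).1 = y := by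
  obtain ⟨w, hw⟩ := ex_unit
  obtain ⟨e, he, e1, e2⟩ := PX.b1_pol (lg (z, y)) w hw
  refine ⟨e, he, e1, e2, ?_⟩
  have h1 := yw.had.ex z y
  rw [e1, yw.jac.scale, mul_one] at h1
  exact h1

theorem cont_of (yw : YW m lg) {f : V → ℝ} {K : ℝ}
    (h : ∀ y y', f y - f y' ≤ K * ‖lg (y, y')‖) : Continuous f := by
  refine continuous_iff_continuousAt.2 fun y => ?_
  have c : Tendsto (fun y' => K * ‖lg (y, y')‖) (𝓝 y) (𝓝 0) := by
    have : Continuous fun y' => K * ‖lg (y, y')‖ :=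
      continuous_const.mul (yw.had.c1.continuous.comp (by fun_prop)).norm
    have h2 := this.tendsto y
    rwa [DNWI.lg_self yw.ok yw.jac yw.had, norm_zero, mul_zero] at h2
  rw [ContinuousAt, tendsto_iff_dist_tendsto_zero]
  refine squeeze_zero (fun _ => dist_nonneg) (fun y' => ?_) c
  rw [Real.dist_eq, abs_le]
  have a1 := h y y'
  have a2 := h y' y
  rw [DNWI.lg_symm yw.jac yw.had] at a2
  constructor <;> linarith

theorem cpt_ball (yw : YW m lg) (z : V) (R : ℝ) : IsCompact {y | ‖lg (z, y)‖ ≤ R} := by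
  have c : Continuous fun b : V => (m.Z 1 (z, b)).1 :=
    (yw.ok.cZ.continuous.comp (f := fun b : V => ((1 : ℝ), z, b)) (by fun_prop)).fst
  have e : {y | ‖lg (z, y)‖ ≤ R} = (fun b : V => (m.Z 1 (z, b)).1) '' Metric.closedBall 0 R := by
    ext y
    constructor
    · intro h
      exact ⟨lg (z, y), mem_closedBall_zero_iff.2 h, yw.had.ex z y⟩
    · rintro ⟨b, hb, rfl⟩
      show ‖lg (z, (m.Z 1 (z, b)).1)‖ ≤ R
      rw [yw.had.xe]
      exact mem_closedBall_zero_iff.1 hb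
  rw [e]
  exact (isCompact_closedBall 0 R).image c

theorem Dd_att (f : BF m lg dX A) (x y : V) : ∃ p, A.pr p = x ∧ Dd A x y = A.β p y ∧
    ∀ p', A.pr p' = x → A.β p' y ≤ A.β p y := by
  obtain ⟨w, hw⟩ := ex_unit
  obtain ⟨q, -⟩ := f.sur y w hw
  obtain ⟨q', -, hq, -⟩ := f.mov q x
  have c : Continuous fun p => A.β p y := f.cont.comp (f := fun p => (p, y)) (by fun_prop)
  obtain ⟨p, hp, hm⟩ := (f.cpt x).exists_isMaxOn ⟨q', hq⟩ c.continuousOn
  refine ⟨p, hp, IsGreatest.csSup_eq ⟨⟨p, hp, rfl⟩, ?_⟩, fun p' h => hm h⟩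
  rintro _ ⟨p', h, rfl⟩
  exact hm h

theorem le_Dd (f : BF m lg dX A) {p : P} {x : V} (h : A.pr p = x) (y : V) :
    A.β p y ≤ Dd A x y := by
  obtain ⟨q, -, e, hm⟩ := Dd_att f x y
  rw [e]
  exact hm p h

theorem Dd_le (f : BF m lg dX A) {x y : V} {R : ℝ} : Dd A x y ≤ R ↔ y ∈ A.C R x := by
  refine ⟨fun h p hp => (le_Dd f hp y).trans h, fun h => ?_⟩
  obtain ⟨q, hq, e, -⟩ := Dd_att f x y
  rw [e]
  exact h q hq

theorem Dd_ly (f : BF m lg dX A) (x y y' : V) : Dd A x y - Dd A x y' ≤ ‖lg (y, y')‖ := by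
  obtain ⟨q, hq, e, -⟩ := Dd_att f x y
  linarith [(f.isb q).lip y y', le_Dd f hq y']

theorem Dd_lx (f : BF m lg dX A) (x x' y : V) : Dd A x y - Dd A x' y ≤ dX x x' := by
  obtain ⟨q, hq, e, -⟩ := Dd_att f x y
  obtain ⟨q', k, hq', hk⟩ := f.mov q x'
  have a := f.lip q q' k hk
  rw [hq, hq'] at a
  linarith [le_Dd f hq' y, hk y, neg_abs_le k]

theorem Dd_lx' (f : BF m lg dX A) (x x' y : V) : Dd A x' y - Dd A x y ≤ dX x x' := by
  obtain ⟨q', hq', e, -⟩ := Dd_att f x' y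
  obtain ⟨q, k, hq, hk⟩ := f.mov q' x
  have a := f.lip q q' (-k) fun z => by rw [hk z]; ring
  rw [hq, hq', abs_neg] at a
  linarith [le_Dd f hq y, hk y, neg_abs_le k]

theorem Dd_cont (f : BF m lg dX A) (x : V) : Continuous (Dd A x) :=
  cont_of f.yw (K := 1) fun y y' => by simpa using Dd_ly f x y y'

theorem Dd_sub (f : BF m lg dX A) (x : V) (z : V × V) {R : ℝ} (h0 : Dd A x z.1 ≤ R)
    (h1 : Dd A x (m.Z 1 z).1 ≤ R) {t : ℝ} (ht : t ∈ Icc (0 : ℝ) 1) :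
    Dd A x (m.Z t z).1 ≤ R :=
  (Dd_le f).2 fun p hp => (f.b1 p).sub z R ((le_Dd f hp _).trans h0) ((le_Dd f hp _).trans h1) t ht

/-- The function of the family over `x` whose ray from `z` passes through `y`. -/
theorem thru (f : BF m lg dX A) (g : BG lg A) (x z y : V) : ∃ p, A.pr p = x ∧
    lg (z, y) = ‖lg (z, y)‖ • A.ν p z ∧ PX.Sh (lg (z, y)) = sinh ‖lg (z, y)‖ • A.ν p z ∧
    ‖lg (z, y)‖ - A.β p z ≤ Dd A x y := by
  obtain ⟨e, he, e1, e2, e3⟩ := pol f.yw z y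
  obtain ⟨p, hp, hν⟩ := g.onto x z e he
  refine ⟨p, hp, by rw [hν]; exact e1, by rw [hν]; exact e2, ?_⟩
  have a := (f.isb p).ray z ‖lg (z, y)‖
  rw [hν, e3] at a
  linarith [g.opp p y, le_Dd f ((f.flp p).1.trans hp) y]

theorem Dd_tri (f : BF m lg dX A) (g : BG lg A) (x y y' : V) :
    ‖lg (y, y')‖ ≤ Dd A x y + Dd A x y' := by
  obtain ⟨p, hp, -, -, h⟩ := thru f g x y y'
  linarith [le_Dd f hp y]

theorem Dd_nonneg (f : BF m lg dX A) (g : BG lg A) (x y : V) : 0 ≤ Dd A x y := by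
  linarith [Dd_tri f g x y y, norm_nonneg (lg (y, y))]

/-- The hinge inequality for the vectors `Sh`. -/
theorem hin_sh (yw : YW m lg) (hi : Hin m lg 1) (z y y' : V) :
    cosh ‖lg (z, y)‖ * cosh ‖lg (z, y')‖ - ⟪PX.Sh (lg (z, y)), PX.Sh (lg (z, y'))⟫ ≤
      cosh ‖lg (y, y')‖ := by
  obtain ⟨u, hu, -, s1, z1⟩ := pol yw z y
  obtain ⟨v, hv, -, s2, z2⟩ := pol yw z y'
  have h := hi z u v _ _ hu hv (norm_nonneg (lg (z, y))) (norm_nonneg (lg (z, y')))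
  rw [z1, z2] at h
  simp only [one_mul] at h
  rw [s1, s2, real_inner_smul_left, real_inner_smul_right]
  linarith

theorem norm_sh (ξ : V) : √(1 + ‖PX.Sh ξ‖ ^ 2) = cosh ‖ξ‖ := by
  obtain ⟨w, hw⟩ := ex_unit
  obtain ⟨a, ha, -, e⟩ := PX.b1_pol ξ w hw
  rw [e, norm_smul, ha, mul_one, Real.norm_eq_abs, sq_abs, add_comm, ← Real.cosh_sq,
    Real.sqrt_sq (Real.cosh_pos _).le]

theorem b1 (yw : YW m lg) (hi : Hin m lg 1) : PX.B1 lg := by
  intro z w y y' hw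
  have hk := PX.b1_key (PX.Sh (lg (z, y))) (PX.Sh (lg (z, y'))) w hw
  rw [norm_sh, norm_sh] at hk
  have hb : cosh (be lg z w y - be lg z w y') ≤ cosh (PX.dl lg y y') := by
    rw [Real.cosh_sub, be, be, Real.cosh_arsinh, Real.cosh_arsinh, Real.sinh_arsinh,
      Real.sinh_arsinh, PX.dl]
    linarith [hin_sh yw hi z y y']
  rw [Real.cosh_le_cosh, abs_of_nonneg (show 0 ≤ PX.dl lg y y' from norm_nonneg _)] at hb
  exact (le_abs_self _).trans hb

/-- Finite points. -/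
theorem near_fin (f : BF m lg dX A) (g : BG lg A) (b : PX.B1 lg) (x z y y₀ : V) {w : V}
    (hw : ‖w‖ = 1) : be lg z w y - Dd A x y ≤ be lg z w y₀ + Dd A x y₀ := by
  have := b z w y y₀ hw
  rw [PX.dl] at this
  linarith [Dd_tri f g x y y₀]

/-- The reverse inequality of Cauchy and Schwarz for a null vector. -/
theorem null_cs {ν w : V} (a : V) (hν : ‖ν‖ = 1) (hw : ‖w‖ = 1) :
    √(1 + ⟪w, a⟫ ^ 2) * |⟪ν, w⟫| - ⟪ν, w⟫ * ⟪w, a⟫ ≤ √(1 + ‖a‖ ^ 2) - ⟪ν, a⟫ := by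
  have hww : ⟪w, w⟫ = 1 := by rw [real_inner_self_eq_norm_sq, hw]; norm_num
  have hin : ∀ Y Y' : V, ⟪Y - ⟪w, Y⟫ • w, Y' - ⟪w, Y'⟫ • w⟫ = ⟪Y, Y'⟫ - ⟪w, Y⟫ * ⟪w, Y'⟫ := by
    intro Y Y'
    simp only [inner_sub_left, inner_sub_right, real_inner_smul_left, real_inner_smul_right, hww]
    rw [real_inner_comm w Y]
    ring
  have h0 : 1 + ‖a‖ ^ 2 = √(1 + ⟪w, a⟫ ^ 2) ^ 2 + ‖a - ⟪w, a⟫ • w‖ ^ 2 := by
    rw [Real.sq_sqrt (by positivity), ← real_inner_self_eq_norm_sq (a - _), hin,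
      real_inner_self_eq_norm_sq]
    ring
  have h3 : |⟪w, ν⟫| ^ 2 + ‖ν - ⟪w, ν⟫ • w‖ ^ 2 = 1 := by
    rw [sq_abs, ← real_inner_self_eq_norm_sq (ν - _), hin, real_inner_self_eq_norm_sq, hν]
    ring
  have h1 := PX.b1_cs (√(1 + ⟪w, a⟫ ^ 2)) ‖a - ⟪w, a⟫ • w‖ |⟪w, ν⟫| ‖ν - ⟪w, ν⟫ • w‖
  have h2 := real_inner_le_norm (a - ⟪w, a⟫ • w) (ν - ⟪w, ν⟫ • w)
  rw [hin] at h2
  rw [h3, sqrt_one, mul_one, ← h0] at h1
  rw [real_inner_comm w ν, real_inner_comm a ν]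
  linarith

theorem null_le {ν w : V} (a : V) (hν : ‖ν‖ = 1) (hw : ‖w‖ = 1) :
    ⟪ν, w⟫ ≤ (√(1 + ‖a‖ ^ 2) - ⟪ν, a⟫) * exp (arsinh ⟪w, a⟫) := by
  have h := null_cs a hν hw
  rw [exp_arsinh]
  have s := Real.sq_sqrt (show 0 ≤ 1 + ⟪w, a⟫ ^ 2 by positivity)
  have p : 0 < ⟪w, a⟫ + √(1 + ⟪w, a⟫ ^ 2) := by
    rw [← exp_arsinh]
    exact exp_pos _
  have b0 := sqrt_nonneg (1 + ⟪w, a⟫ ^ 2)
  have h' : ⟪ν, w⟫ * (√(1 + ⟪w, a⟫ ^ 2) - ⟪w, a⟫) ≤ √(1 + ‖a‖ ^ 2) - ⟪ν, a⟫ := by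
    nlinarith [mul_le_mul_of_nonneg_left (le_abs_self ⟪ν, w⟫) b0]
  have k := mul_le_mul_of_nonneg_right h' p.le
  have e : ⟪ν, w⟫ * (√(1 + ⟪w, a⟫ ^ 2) - ⟪w, a⟫) * (⟪w, a⟫ + √(1 + ⟪w, a⟫ ^ 2)) = ⟪ν, w⟫ := by
    linear_combination ⟪ν, w⟫ * s
  rwa [e] at k

/-- The bound `lb` towards a point. -/
theorem lb_sh (f : BF m lg dX A) {p : P} {x : V} (hp : A.pr p = x) (z y : V) :
    exp (A.β p z) * (cosh ‖lg (z, y)‖ - ⟪A.ν p z, PX.Sh (lg (z, y))⟫) ≤ exp (Dd A x y) := by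
  obtain ⟨e, he, -, e2, e3⟩ := pol f.yw z y
  have a := (f.isb p).lb z e ‖lg (z, y)‖ he
  rw [e3] at a
  rw [e2, real_inner_smul_right, mul_comm (sinh _)]
  exact a.trans (exp_le_exp.2 (le_Dd f hp y))

/-- Points at infinity. -/
theorem near_gq (f : BF m lg dX A) {p : P} {x : V} (hp : A.pr p = x) (z y₀ : V) {w : V}
    (hw : ‖w‖ = 1) : gq (A.β p) (A.ν p) (z, w) ≤ exp (be lg z w y₀ + Dd A x y₀) := by
  have a := lb_sh f hp z y₀
  have b := null_le (PX.Sh (lg (z, y₀))) ((f.isb p).unit z) hw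
  rw [norm_sh] at b
  rw [exp_add, be, gq]
  have c := mul_le_mul_of_nonneg_left b (exp_pos (A.β p z)).le
  have d := mul_le_mul_of_nonneg_right a (exp_pos (arsinh ⟪w, PX.Sh (lg (z, y₀))⟫)).le
  dsimp only
  nlinarith

theorem near_uq (f : BF m lg dX A) (h : BH A) (x z y₀ : V) {w : V} (hw : ‖w‖ = 1) :
    uq A x z w ≤ be lg z w y₀ + Dd A x y₀ := by
  obtain ⟨p, hp, p0, e, -⟩ := h.max x z w hw
  rw [e, log_le_iff_le_exp p0]
  exact near_gq f hp z y₀ hw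

theorem gq_le (h : BH A) {p : P} {x : V} (hp : A.pr p = x) (z : V) {w : V} (hw : ‖w‖ = 1) :
    gq (A.β p) (A.ν p) (z, w) ≤ exp (uq A x z w) := by
  obtain ⟨q, -, p0, e, hm⟩ := h.max x z w hw
  rw [e, exp_log p0]
  exact hm p hp

/-- Far points lose against the points at infinity. -/
theorem far (f : BF m lg dX A) (g : BG lg A) (h : BH A) (x z y : V) {w : V} (hw : ‖w‖ = 1) :
    exp (be lg z w y - Dd A x y) ≤ exp (uq A x z w) + exp (Dd A x z - ‖lg (z, y)‖) := by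
  obtain ⟨p, hp, -, e2, hd⟩ := thru f g x z y
  have a := gq_le h hp z hw
  rw [gq] at a
  dsimp only at a
  obtain ⟨d, hd'⟩ : ∃ d, d = ‖lg (z, y)‖ := ⟨_, rfl⟩
  have d0 : 0 ≤ d := hd' ▸ norm_nonneg _
  rw [be, e2, real_inner_smul_right, real_inner_comm, ← hd', sub_eq_add_neg, exp_add]
  rw [← hd'] at hd
  obtain ⟨t, ht⟩ : ∃ t, t = ⟪A.ν p z, w⟫ := ⟨_, rfl⟩
  rw [← ht] at a ⊢
  have b1 : exp (-Dd A x y) ≤ exp (A.β p z) * exp (-d) := by
    rw [← exp_add]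
    exact exp_le_exp.2 (by linarith)
  have b2 : exp (A.β p z) * exp (-d) ≤ exp (Dd A x z - d) := by
    rw [← exp_add]
    exact exp_le_exp.2 (by linarith [le_Dd f hp z])
  have u0 := exp_pos (uq A x z w)
  have ed : exp d * exp (-d) = 1 := by rw [← exp_add, add_neg_cancel, exp_zero]
  refine (mul_le_mul_of_nonneg_left b1 (exp_pos _).le).trans ?_
  have q0 : 0 < exp (A.β p z) * exp (-d) := by positivity
  rcases le_total t 0 with t0 | t0
  · have : exp (arsinh (sinh d * t)) ≤ 1 := exp_le_one_iff.2 (arsinh_nonpos_iff.2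
      (mul_nonpos_of_nonneg_of_nonpos (sinh_nonneg_iff.2 d0) t0))
    nlinarith
  · have s0 : 0 ≤ sinh d * t := mul_nonneg (sinh_nonneg_iff.2 d0) t0
    have c1 : exp (arsinh (sinh d * t)) ≤ exp d * t + 1 := by
      rw [exp_arsinh]
      have : √(1 + (sinh d * t) ^ 2) ≤ sinh d * t + 1 :=
        sqrt_le_iff.2 ⟨by linarith, by nlinarith⟩
      have s2 : 2 * sinh d ≤ exp d := by
        rw [sinh_eq]
        linarith [exp_pos (-d)]
      nlinarith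
    have c2 := mul_le_mul_of_nonneg_right c1 q0.le
    have c3 : (exp d * t + 1) * (exp (A.β p z) * exp (-d)) =
        exp d * exp (-d) * (exp (A.β p z) * t) + exp (A.β p z) * exp (-d) := by ring
    rw [ed, one_mul] at c3
    linarith

theorem sh_cont : Continuous (PX.Sh : V → V) := by
  refine continuous_iff_continuousAt.2 fun ξ => ?_
  by_cases h : ξ = 0
  · subst h
    have e : PX.Sh (0 : V) = 0 := by simp [PX.Sh]
    rw [ContinuousAt, e, tendsto_zero_iff_norm_tendsto_zero]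
    have c : Continuous fun ξ : V => sinh ‖ξ‖ := by fun_prop
    have := c.tendsto 0
    rw [norm_zero, sinh_zero] at this
    refine this.congr fun ξ => ?_
    obtain ⟨w, hw⟩ := ex_unit
    obtain ⟨a, ha, -, e⟩ := PX.b1_pol ξ w hw
    rw [e, norm_smul, ha, mul_one, Real.norm_eq_abs,
      abs_of_nonneg (sinh_nonneg_iff.2 (norm_nonneg _))]
  · exact ((continuous_sinh.comp continuous_norm).continuousAt.div continuous_norm.continuousAt
      (norm_ne_zero_iff.2 h)).smul continuousAt_id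

theorem be_cont (yw : YW m lg) (z w : V) : Continuous fun y => be lg z w y :=
  continuous_arsinh.comp (continuous_const.inner (sh_cont.comp
    (yw.had.c1.continuous.comp (f := fun y => (z, y)) (by fun_prop))))

/-- A finite point that beats the points at infinity can be replaced by a best one. -/
theorem att (f : BF m lg dX A) (g : BG lg A) (h : BH A) {x z y₁ w : V}
    (hw : ‖w‖ = 1) (h1 : uq A x z w < be lg z w y₁ - Dd A x y₁) :
    ∃ y, ∀ y', be lg z w y' - Dd A x y' ≤ be lg z w y - Dd A x y := by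
  have c : Continuous fun y => be lg z w y - Dd A x y :=
    (be_cont f.yw z w).sub (Dd_cont f x)
  have g0 : 0 < exp (be lg z w y₁ - Dd A x y₁) - exp (uq A x z w) :=
    sub_pos.2 (exp_lt_exp.2 h1)
  obtain ⟨R, hR⟩ : ∃ R, R = Dd A x z - log (exp (be lg z w y₁ - Dd A x y₁) - exp (uq A x z w)) :=
    ⟨_, rfl⟩
  have out : ∀ y, R < ‖lg (z, y)‖ → be lg z w y - Dd A x y < be lg z w y₁ - Dd A x y₁ := by
    intro y hy
    have a1 := far f g h x z y hw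
    have a2 : exp (Dd A x z - ‖lg (z, y)‖) <
        exp (be lg z w y₁ - Dd A x y₁) - exp (uq A x z w) := by
      rw [← lt_log_iff_exp_lt g0]
      linarith
    exact exp_lt_exp.1 (by linarith)
  have m1 : y₁ ∈ {y | ‖lg (z, y)‖ ≤ R} := not_lt.1 fun hy => (out y₁ hy).false
  obtain ⟨y, -, hm⟩ := (cpt_ball f.yw z R).exists_isMaxOn ⟨y₁, m1⟩ c.continuousOn
  refine ⟨y, fun y' => ?_⟩
  rcases le_or_gt ‖lg (z, y')‖ R with k | k
  · exact hm k
  · exact (out y' k).le.trans (hm m1)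

end

end Pool.Agent.MP_3ee8cb_gt.DRK
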