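import Pool.Agent.MP_3ee8cb_gt.DQ.RHD
import Pool.Agent.MP_3ee8cb_gt.DQ.RTOU
import Pool.Agent.MP_3ee8cb_gt.DQH.J2
import Pool.Agent.MP_3ee8cb_gt.PX.B2

/-! The gradient of the hyperbolic cosine of the distance to a point. -/

namespace Pool.Agent.MP_3ee8cb_gt.DRK

open DN (Dim dm)

variable [Dim]

open DN DZ Real Filter Topology Asymptotics
open DZH (DL)
open scoped RealInnerProductSpace

variable {m : MF} {lg : V × V → V} {b : ℝ}

omit [Dim] in
theorem coth_b {b d : ℝ} (hb : 1 ≤ b) :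
    b * cosh (b * d) * sinh d ≤ (cosh d + (b - 1) * sinh d) * sinh (b * d) := by
  have h1 := one_add_mul_self_le_rpow_one_add (s := exp (2 * d) - 1)
    (by linarith [exp_pos (2 * d)]) hb
  rw [add_sub_cancel, ← exp_mul] at h1
  have e1 : exp (2 * d) = exp d * exp d := by rw [← exp_add]; ring_nf
  have e2 : exp (2 * d * b) = exp (b * d) * exp (b * d) := by rw [← exp_add]; ring_nf
  have e3 : exp (-d) * exp d = 1 := by rw [← exp_add]; simp
  have e4 : exp (-(b * d)) * exp (b * d) = 1 := by rw [← exp_add]; simp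
  rw [e1, e2] at h1
  have h2 := mul_le_mul_of_nonneg_left h1 (mul_pos (exp_pos (-d)) (exp_pos (-(b * d)))).le
  have h3 : b * exp (-(b * d)) * sinh d ≤ exp (-d) * sinh (b * d) := by
    rw [sinh_eq, sinh_eq]
    have a1 : exp (-d) * exp (-(b * d)) * (exp d * exp d) = exp (-(b * d)) * exp d := by
      linear_combination (exp (-(b * d)) * exp d) * e3
    have a2 : exp (-d) * exp (-(b * d)) * (exp (b * d) * exp (b * d)) = exp (-d) * exp (b * d) := by
      linear_combination (exp (-d) * exp (b * d)) * e4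
    have a3 := congrArg (b * ·) a1
    linarith
  rw [← cosh_sub_sinh, ← cosh_sub_sinh] at h3
  linarith

theorem he_dl (h : YW m lg) (z y e : V) : PXH.H m lg z y e = -DL m lg y z e := by
  rw [← PX.HEx.he_eq h.had]
  simp [PX.He, DL]

/-- The sharp comparison. -/
theorem cmp (h : YW m lg) (hb : 1 ≤ b) (hu : m.Up 1) (hd : m.Dn (b ^ 2)) {z y e : V}
    (h0 : lg (z, y) ≠ 0) (he : ⟪e, lg (z, y)⟫ = 0) :
    ‖lg (z, y)‖ * cosh ‖lg (z, y)‖ * ‖e‖ ^ 2 ≤ sinh ‖lg (z, y)‖ * -⟪DL m lg y z e, e⟫ ∧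
      sinh ‖lg (z, y)‖ * -⟪DL m lg y z e, e⟫ ≤
        ‖lg (z, y)‖ * (cosh ‖lg (z, y)‖ + (b - 1) * sinh ‖lg (z, y)‖) * ‖e‖ ^ 2 := by
  have p := norm_pos_iff.2 h0
  have hs := sinh_pos_iff.2 p
  constructor
  · have h1 := PXH.low h.ok h.jac hu h.had he (PXH.mod_sinh (norm_nonneg _))
    simp only [sub_zero, mul_one, he_dl h, inner_neg_left] at h1
    linarith [nonneg_of_mul_nonneg_right h1 hs]
  · obtain ⟨ξ, a1, a2, a3⟩ := DLH.jf h y z e
    have h1 := DQH.jupp h.ok h.jac h.up (by linarith : 0 ≤ b) hd _ ξ a3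
    rw [a1, a2] at h1
    have s2 : 0 < sinh (b * ‖lg (z, y)‖) := sinh_pos_iff.2 (mul_pos (by linarith) p)
    have h2 := mul_le_mul_of_nonneg_left h1 hs.le
    have h3 := mul_le_mul_of_nonneg_left (coth_b (d := ‖lg (z, y)‖) hb)
      (mul_nonneg p.le (sq_nonneg ‖e‖))
    refine le_of_mul_le_mul_right ?_ s2
    simp only at h2
    linarith

theorem sh0 : HasFDerivAt PX.Sh (1 : V →L[ℝ] V) 0 := by
  have e : ∀ a : V, PX.Sh a = dslope sinh 0 ‖a‖ • a := fun a => by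
    by_cases ha : a = 0
    · simp [PX.Sh, ha]
    · rw [dslope_of_ne _ (norm_ne_zero_iff.2 ha), slope_def_field]
      simp [PX.Sh]
  have c : ContinuousAt (dslope sinh 0) ‖(0 : V)‖ := by
    rw [norm_zero]
    exact continuousAt_dslope_same.2 differentiableAt_sinh
  have c2 : Tendsto (fun a : V => dslope sinh 0 ‖a‖ - 1) (𝓝 0) (𝓝 0) := by
    have := (ContinuousAt.comp (f := fun a : V => ‖a‖) c continuous_norm.continuousAt).tendsto
    simp only [Function.comp_def, norm_zero, dslope_same, Real.deriv_sinh, cosh_zero] at this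
    simpa using this.sub_const 1
  rw [hasFDerivAt_iff_isLittleO_nhds_zero]
  have := ((isLittleO_one_iff ℝ).2 c2).smul_isBigO (isBigO_refl (fun a : V => a) (𝓝 0))
  refine this.congr (fun a => ?_) fun a => one_smul _ _
  simp [e, sub_smul]

theorem dsh {F : V → V} {F' : V →L[ℝ] V} {y : V} (hF : HasFDerivAt F F' y) (h0 : F y ≠ 0) :
    ∃ D : V →L[ℝ] V, HasFDerivAt (fun z => PX.Sh (F z)) D y ∧ ∀ u, D u =
      (sinh ‖F y‖ / ‖F y‖) • F' u +
        ((cosh ‖F y‖ - sinh ‖F y‖ / ‖F y‖) * ⟪un (F y), F' u⟫) • un (F y) := by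
  have p := norm_pos_iff.2 h0
  have d1 := hF.norm_sq.sqrt (by positivity)
  simp only [sqrt_sq (norm_nonneg _)] at d1
  have d2 := ((((hasDerivAt_sinh _).div (hasDerivAt_id _) p.ne').comp_hasFDerivAt y d1).smul hF)
  refine ⟨_, d2, fun u => ?_⟩
  simp only [un, add_apply, smul_apply, ContinuousLinearMap.smulRight_apply,
    ContinuousLinearMap.comp_apply, innerSL_apply_apply, Pi.div_apply, id,
    Function.comp_apply, real_inner_smul_left, smul_eq_mul, nsmul_eq_mul, Nat.cast_ofNat]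
  rw [smul_smul]
  congr 2
  field_simp

/-- The covariant derivative of `Sh (lg (·, y))`. -/
theorem hess (h : YW m lg) (hb : 1 ≤ b) (hu : m.Up 1) (hd : m.Dn (b ^ 2)) (z y : V) :
    ∃ E : V →L[ℝ] V, (∀ a c, ⟪E a, c⟫ = ⟪a, E c⟫) ∧ E (lg (z, y)) = 0 ∧
      (∀ a, 0 ≤ ⟪E a, a⟫ ∧ ⟪E a, a⟫ ≤ (b - 1) * sinh ‖lg (z, y)‖ * ‖a‖ ^ 2) ∧
      ∃ D : V →L[ℝ] V, HasFDerivAt (fun z => PX.Sh (lg (z, y))) D z ∧ ∀ u,
        D u + m.om z u (PX.Sh (lg (z, y))) = -(cosh ‖lg (z, y)‖ • m.S z u + E (m.S z u)) := by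
  have eF : ∀ u, fderiv ℝ (fun z => lg (z, y)) z u =
      DL m lg y z (m.S z u) - m.om z u (lg (z, y)) := fun u => by simp [DL, h.ok.RS]
  by_cases h0 : lg (z, y) = 0
  · have d0 : HasFDerivAt PX.Sh (1 : V →L[ℝ] V) (lg (z, y)) := h0 ▸ sh0
    have d1 := d0.comp z (DLH.dlg h y z)
    refine ⟨0, by simp, by simp, by simp [h0], _, d1, fun u => ?_⟩
    have := DLH.upp h hd (sq_nonneg b) y z (m.S z u)
    rw [h0, norm_zero, zero_pow two_ne_zero, mul_zero, zero_mul, norm_le_zero_iff,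
      add_eq_zero_iff_eq_neg] at this
    simp [eF, h0, PX.Sh, this]
  have p := norm_pos_iff.2 h0
  obtain ⟨D, hD, eD⟩ := dsh (DLH.dlg h y z) h0
  have r := DQ.HDx.rad h y z
  have sy := DLH.sym h y z
  have j := fun e => cmp h hb hu hd (e := e) h0
  have sk : ∀ u, ⟪lg (z, y), m.om z u (lg (z, y))⟫ = 0 := fun u => by
    have := h.ok.skew z u (lg (z, y)) (lg (z, y))
    rw [real_inner_comm] at this
    linarith
  generalize DL m lg y z = A at *
  obtain ⟨n, hn⟩ : ∃ n, n = un (lg (z, y)) := ⟨_, rfl⟩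
  obtain ⟨T, hT⟩ : ∃ T, T = ‖lg (z, y)‖ := ⟨_, rfl⟩
  have eL : lg (z, y) = T • n := by
    rw [hn, hT, un, smul_smul, mul_inv_cancel₀ p.ne', one_smul]
  have n1 : ⟪n, n⟫ = 1 := by
    rw [real_inner_self_eq_norm_sq, hn, un, norm_smul, norm_inv, norm_norm, inv_mul_cancel₀ p.ne',
      one_pow]
  have eS : PX.Sh (lg (z, y)) = (sinh T / T) • lg (z, y) := by rw [PX.Sh, hT]
  rw [← hn, ← hT] at eD
  rw [eS]
  rw [← hT] at p j ⊢
  have rn : A n = -n := by
    rw [eL, map_smul, ← smul_neg] at r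
    exact smul_right_injective V p.ne' r
  have an : ∀ a, ⟪A a, n⟫ = -⟪n, a⟫ := fun a => by
    rw [sy, rn, inner_neg_right, real_inner_comm]
  obtain ⟨E, hE⟩ : ∃ E : V →L[ℝ] V, ∀ a, E a =
      -((sinh T / T) • (A a + ⟪n, a⟫ • n)) - cosh T • (a - ⟪n, a⟫ • n) :=
    ⟨-((sinh T / T) • (A + (innerSL ℝ n).smulRight n)) -
      cosh T • (1 - (innerSL ℝ n).smulRight n), fun a => by simp⟩
  refine ⟨E, fun a c => ?_, ?_, fun a => ?_, D, hD, fun u => ?_⟩
  · simp only [hE, inner_sub_left, inner_sub_right, inner_neg_left, inner_neg_right,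
      real_inner_smul_left, real_inner_smul_right, inner_add_left, inner_add_right, sy,
      real_inner_comm n a]
    ring
  · rw [eL, map_smul, hE, rn, n1]
    simp
  · have a1 : ⟪a - ⟪n, a⟫ • n, n⟫ = 0 := by
      rw [inner_sub_left, real_inner_smul_left, n1, real_inner_comm]
      ring
    obtain ⟨b1, b2⟩ := j (a - ⟪n, a⟫ • n) (by rw [eL, real_inner_smul_right, a1, mul_zero])
    have a2 : ‖a - ⟪n, a⟫ • n‖ ^ 2 = ‖a‖ ^ 2 - ⟪n, a⟫ ^ 2 := by
      rw [← real_inner_self_eq_norm_sq, ← real_inner_self_eq_norm_sq, inner_sub_right,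
        real_inner_smul_right, a1, inner_sub_left, real_inner_smul_left]
      ring
    have a3 : ⟪A (a - ⟪n, a⟫ • n), a - ⟪n, a⟫ • n⟫ = ⟪A a, a⟫ + ⟪n, a⟫ ^ 2 := by
      rw [inner_sub_right, real_inner_smul_right, an, real_inner_comm (a - ⟪n, a⟫ • n) n, a1,
        map_sub, map_smul, rn, inner_sub_left, real_inner_smul_left, inner_neg_left]
      ring
    have a4 : T * ⟪E a, a⟫ =
        sinh T * -(⟪A a, a⟫ + ⟪n, a⟫ ^ 2) - T * cosh T * (‖a‖ ^ 2 - ⟪n, a⟫ ^ 2) := by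
      simp only [hE, inner_sub_left, inner_neg_left, real_inner_smul_left, inner_add_left,
        real_inner_self_eq_norm_sq]
      field_simp
    rw [a2, a3] at b1 b2
    refine ⟨le_of_mul_le_mul_left (by rw [a4]; linarith) p, le_of_mul_le_mul_left ?_ p⟩
    rw [a4]
    nlinarith [mul_nonneg (mul_nonneg (mul_nonneg (sub_nonneg.2 hb) p.le)
      (sinh_pos_iff.2 p).le) (sq_nonneg ⟪n, a⟫)]
  · have s1 : ⟪n, m.om z u n⟫ = 0 := by
      have := sk u
      rw [eL, map_smul, real_inner_smul_left, real_inner_smul_right] at this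
      simpa [p.ne'] using this
    rw [eD, eF, hE, eL, map_smul, map_smul, map_smul, inner_sub_right, real_inner_smul_right,
      s1, real_inner_comm (A _), an]
    module

end Pool.Agent.MP_3ee8cb_gt.DRK
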