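import Pool.Agent.MP_3ee8cb_gt.DRK.Plane

/-! The fourth moment of a rotation invariant measure on directions. -/

namespace Pool.Agent.MP_3ee8cb_gt.DRK

open Set MeasureTheory CR Real DZJ
open scoped RealInnerProductSpace

variable {n : ℕ}

theorem int22 (μ : Measure (E n)) [IsFiniteMeasure μ] (a b : E n) :
    Integrable (fun w : E n => ⟪‖w‖⁻¹ • w, a⟫ ^ 2 * ⟪‖w‖⁻¹ • w, b⟫ ^ 2) μ := by
  refine Integrable.of_bound (Measurable.aestronglyMeasurable (by fun_prop)) (‖a‖ ^ 2 * ‖b‖ ^ 2)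
    (.of_forall fun w => ?_)
  have h : ∀ c : E n, ‖⟪‖w‖⁻¹ • w, c⟫‖ ≤ ‖c‖ := fun c =>
    (norm_inner_le_norm _ _).trans (mul_le_of_le_one_left (norm_nonneg _) (hat_le w))
  rw [norm_mul, norm_pow, norm_pow]
  exact mul_le_mul (pow_le_pow_left₀ (norm_nonneg _) (h a) 2)
    (pow_le_pow_left₀ (norm_nonneg _) (h b) 2) (by positivity) (by positivity)

theorem int4 (μ : Measure (E n)) [IsFiniteMeasure μ] (a : E n) :
    Integrable (fun w : E n => ⟪‖w‖⁻¹ • w, a⟫ ^ 4) μ :=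
  (int22 μ a a).congr (.of_forall fun w => by ring)

/-- The fourth moment. -/
theorem m4 (μ : Measure (E n)) [IsFiniteMeasure μ]
    (hinv : ∀ R : E n ≃ₗᵢ[ℝ] E n, MeasurePreserving R μ μ) (h0 : ∀ᵐ w ∂μ, w ≠ 0)
    (hiso : ∀ a b : E n, ∫ w, ⟪‖w‖⁻¹ • w, a⟫ * ⟪‖w‖⁻¹ • w, b⟫ ∂μ = ⟪a, b⟫) {e : E n}
    (he : ‖e‖ = 1) : ∫ w, ⟪‖w‖⁻¹ • w, e⟫ ^ 4 ∂μ = 3 / (n + 2) := by
  set M : E n → ℝ := fun c => ∫ w, ⟪‖w‖⁻¹ • w, c⟫ ^ 4 ∂μ with hM
  have h1 : ∀ c d : E n, ‖c‖ = ‖d‖ → M c = M d := fun c d h => by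
    let R := (ℝ ∙ (c - d))ᗮ.reflection
    have hR : R c = d := Submodule.reflection_sub h
    have := (hinv R).integral_comp R.toHomeomorph.measurableEmbedding
      fun w => ⟪‖w‖⁻¹ • w, d⟫ ^ 4
    simp only [hM]
    rw [← this, ← hR]
    simp only [LinearIsometryEquiv.norm_map, ← map_smul, LinearIsometryEquiv.inner_map_map]
  have h2 : ∀ c : E n, ‖c‖ ^ 2 = 2 → M c = 4 * M e := fun c hc => by
    rw [h1 c (‖c‖ • e) (by rw [norm_smul, norm_norm, he, mul_one])]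
    simp only [hM, real_inner_smul_right, mul_pow, integral_const_mul]
    rw [show ‖c‖ ^ 4 = (‖c‖ ^ 2) ^ 2 by ring, hc]
    norm_num
  have h3 : ∀ a b : E n, ‖a‖ = 1 → ‖b‖ = 1 → ⟪a, b⟫ = 0 →
      ∫ w, ⟪‖w‖⁻¹ • w, a⟫ ^ 2 * ⟪‖w‖⁻¹ • w, b⟫ ^ 2 ∂μ = M e / 3 := fun a b ha hb hab => by
    have e1 := h2 (a + b) (by rw [norm_add_sq_real, ha, hb, hab]; norm_num)
    have e2 := h2 (a - b) (by rw [norm_sub_sq_real, ha, hb, hab]; norm_num)
    have e3 := h1 a e (ha.trans he.symm)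
    have e4 := h1 b e (hb.trans he.symm)
    have e5 : M (a + b) + M (a - b) = 2 * (M a + M b) +
        12 * ∫ w, ⟪‖w‖⁻¹ • w, a⟫ ^ 2 * ⟪‖w‖⁻¹ • w, b⟫ ^ 2 ∂μ := by
      simp only [hM]
      rw [← integral_add (int4 μ _) (int4 μ _), ← integral_add (int4 μ _) (int4 μ _),
        ← integral_const_mul, ← integral_const_mul, ← integral_add
          (((int4 μ _).fun_add (int4 μ _)).const_mul _) ((int22 μ _ _).const_mul _)]
      refine integral_congr_ae (.of_forall fun w => ?_)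
      simp only [inner_add_right, inner_sub_right]
      ring
    linarith
  have hn : 0 < n := Nat.pos_of_ne_zero fun h => by
    subst h
    simp [Subsingleton.elim e 0] at he
  let f := EuclideanSpace.basisFun (Fin n) ℝ
  let i : Fin n := ⟨0, hn⟩
  have h4 : ∑ j, ∫ w, ⟪‖w‖⁻¹ • w, f i⟫ ^ 2 * ⟪‖w‖⁻¹ • w, f j⟫ ^ 2 ∂μ = 1 := by
    have e1 := hiso (f i) (f i)
    rw [real_inner_self_eq_norm_sq, f.orthonormal.1 i, one_pow] at e1
    rw [← integral_finsetSum _ fun j _ => int22 μ _ _, ← e1]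
    refine integral_congr_ae ?_
    filter_upwards [h0] with w hw
    rw [← Finset.mul_sum, f.sum_sq_inner_left, hat_norm hw]
    ring
  have h5 : ∫ w, ⟪‖w‖⁻¹ • w, f i⟫ ^ 2 * ⟪‖w‖⁻¹ • w, f i⟫ ^ 2 ∂μ = M e := by
    rw [← h1 (f i) e ((f.orthonormal.1 i).trans he.symm)]
    exact integral_congr_ae (.of_forall fun w => by ring)
  rw [← Finset.add_sum_erase _ _ (Finset.mem_univ i), h5, Finset.sum_congr rfl fun j hj =>
    h3 _ _ (f.orthonormal.1 i) (f.orthonormal.1 j)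
      (f.orthonormal.2 (Finset.ne_of_mem_erase hj).symm), Finset.sum_const,
    Finset.card_erase_of_mem (Finset.mem_univ i), Finset.card_univ, Fintype.card_fin,
    nsmul_eq_mul, Nat.cast_pred hn] at h4
  change M e = _
  rw [eq_div_iff (by positivity)]
  linarith

end Pool.Agent.MP_3ee8cb_gt.DRK
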