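import Pool.Agent.MP_3ee8cb_gt.DQ.RAP

/-! The distance between two geodesic segments is convex. -/

namespace Pool.Agent.MP_3ee8cb_gt.DRK

open DN (Dim dm)

variable [Dim]

open DN DZ DNWI Set
open scoped RealInnerProductSpace

variable {m : MF} {lg : V × V → V}

theorem back (Y : YW m lg) (z : V × V) (t : ℝ) :
    (m.Z (1 - t) ((m.Z 1 z).1, lg ((m.Z 1 z).1, z.1))).1 = (m.Z t z).1 := by
  have e1 : lg ((m.Z 1 z).1, z.1) = ((0 : ℝ) - 1) • (m.Z 1 z).2 := by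
    have := lg_geo Y.ok Y.jac Y.had z 1 0
    rwa [Y.ok.zero] at this
  rw [e1, Y.jac.scale, ← Y.ok.add, show ((0 : ℝ) - 1) * (1 - t) + 1 = t by ring]

theorem cvx (Y : YW m lg) (z y : V × V) {t : ℝ} (ht : t ∈ Icc (0 : ℝ) 1) :
    ‖lg ((m.Z t z).1, (m.Z t y).1)‖ ≤
      (1 - t) * ‖lg (z.1, y.1)‖ + t * ‖lg ((m.Z 1 z).1, (m.Z 1 y).1)‖ := by
  have a := DQ.APx.thin Y.ok Y.jac Y.had z.1 z.2 (lg (z.1, (m.Z 1 y).1)) ht.1 ht.2
  rw [Y.had.ex] at a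
  have b := DQ.APx.thin Y.ok Y.jac Y.had (m.Z 1 y).1 (lg ((m.Z 1 y).1, z.1))
    (lg ((m.Z 1 y).1, y.1)) (sub_nonneg.2 ht.2) (by linarith [ht.1] : 1 - t ≤ 1)
  rw [Y.had.ex, Y.had.ex, back Y y t] at b
  have c := back Y (z.1, lg (z.1, (m.Z 1 y).1)) t
  rw [Y.had.ex] at c
  simp only at c
  rw [c] at b
  have d := Y.had.tri (m.Z t z).1 (m.Z t (z.1, lg (z.1, (m.Z 1 y).1))).1 (m.Z t y).1
  linarith

end Pool.Agent.MP_3ee8cb_gt.DRK
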