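import Pool.Agent.MP_3ee8cb_gt.DQ.Spec

/-! A centre of Jung type for a family of Busemann functions. -/

namespace Pool.Agent.MP_3ee8cb_gt.DRK

open Set Filter Topology Real
open scoped RealInnerProductSpace
open DN (Dim dm)

variable [Dim]

open DN DZ DQ

/-- Unit vectors with bounded mutual angles lie in a cap. -/
theorem helly {ι : Type} (a : ι → V) (η : ℝ) (hu : ∀ i, ‖a i‖ = 1)
    (hη : ∀ i j, 1 - ⟪a i, a j⟫ ≤ η) :
    ∃ v : V, ∀ i, ‖v‖ ≤ 1 ∧ 1 - dm * η / (dm + 1) ≤ ⟪a i, v⟫ := by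
  classical
  have key : (⋂ i, {v : V | ‖v‖ ≤ 1 ∧ 1 - dm * η / (dm + 1) ≤ ⟪a i, v⟫}).Nonempty := by
    refine Convex.helly_theorem_compact' (𝕜 := ℝ) (fun i => ?_) (fun i => ?_) fun I hI => ?_
    · intro x hx y hy s t hs ht hst
      refine ⟨?_, ?_⟩
      · have h1 := norm_add_le (s • x) (t • y)
        rw [norm_smul, norm_smul, Real.norm_of_nonneg hs, Real.norm_of_nonneg ht] at h1
        nlinarith [hx.1, hy.1]
      · rw [inner_add_right, real_inner_smul_right, real_inner_smul_right]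
        have h1 := mul_le_mul_of_nonneg_left hx.2 hs
        have h2 := mul_le_mul_of_nonneg_left hy.2 ht
        have h3 : (s + t) * (1 - dm * η / (dm + 1)) = 1 - dm * η / (dm + 1) := by
          rw [hst, one_mul]
        linarith
    · refine (isCompact_closedBall (0 : V) 1).of_isClosed_subset ?_ fun v hv => ?_
      · have h1 : IsClosed {v : V | ‖v‖ ≤ 1} := isClosed_le continuous_norm continuous_const
        have h2 : IsClosed {v : V | 1 - dm * η / (dm + 1) ≤ ⟪a i, v⟫} :=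
          isClosed_le continuous_const (by fun_prop)
        exact h1.inter h2
      · simpa using hv.1
    · rcases I.eq_empty_or_nonempty with rfl | hne
      · simp
      have hk : (0 : ℝ) < I.card := by exact_mod_cast hne.card_pos
      have hk2 : (I.card : ℝ) ≤ dm + 1 := by
        rw [finrank_euclideanSpace_fin] at hI
        exact_mod_cast hI
      refine ⟨(I.card : ℝ)⁻¹ • ∑ j ∈ I, a j, mem_iInter₂.2 fun i hi => ⟨?_, ?_⟩⟩
      · rw [norm_smul, Real.norm_of_nonneg (inv_nonneg.2 hk.le), inv_mul_le_iff₀ hk, mul_one]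
        refine (norm_sum_le _ _).trans ?_
        simp [hu]
      · have h0 : ⟪a i, a i⟫ = 1 := by rw [real_inner_self_eq_norm_sq, hu]; norm_num
        have hη0 : 0 ≤ η := by have := hη i i; rw [h0] at this; linarith
        have h1 : ∑ j ∈ I, ((1 - η) + if j = i then η else 0) ≤ ∑ j ∈ I, ⟪a i, a j⟫ := by
          refine Finset.sum_le_sum fun j _ => ?_
          split_ifs with h
          · rw [h, h0]; linarith
          · linarith [hη i j]
        rw [Finset.sum_add_distrib, Finset.sum_const, Finset.sum_ite_eq', if_pos hi,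
          nsmul_eq_mul] at h1
        rw [real_inner_smul_right, inner_sum, le_inv_mul_iff₀ hk]
        refine le_trans ?_ h1
        have hd : (0 : ℝ) < dm + 1 := by positivity
        have h2 : dm * η / (dm + 1) = η - η / (dm + 1) := by field_simp; ring
        have h3 : I.card * (η / (dm + 1)) ≤ η := by
          rw [← mul_div_assoc, div_le_iff₀ hd]; nlinarith
        rw [h2]; nlinarith
  obtain ⟨v, hv⟩ := key
  exact ⟨v, fun i => mem_iInter.1 hv i⟩

/-- There is a unit vector. -/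
theorem ex_unit : ∃ e : V, ‖e‖ = 1 := ⟨EuclideanSpace.single ⟨0, by simp⟩ 1, by simp⟩

/-- Unit vectors with mutual angles below the angle of the simplex lie in a half space. -/
theorem half {ι : Type} (a : ι → V) (η : ℝ) (hu : ∀ i, ‖a i‖ = 1)
    (hη : ∀ i j, 1 - ⟪a i, a j⟫ ≤ η) (h : dm * η < dm + 1) :
    ∃ v : V, ‖v‖ = 1 ∧ ∀ i, 0 < ⟪a i, v⟫ := by
  obtain ⟨v, hv⟩ := helly a η hu hη
  have hd : (0 : ℝ) < dm + 1 := by positivity
  have hp : ∀ i, 0 < ⟪a i, v⟫ := fun i => by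
    have := (div_lt_one hd).2 h
    linarith [(hv i).2]
  by_cases h0 : v = 0
  · obtain ⟨e, he⟩ := ex_unit
    refine ⟨e, he, fun i => ?_⟩
    have := hp i
    rw [h0, inner_zero_right] at this
    exact absurd this (lt_irrefl _)
  · have hn : 0 < ‖v‖ := norm_pos_iff.2 h0
    refine ⟨‖v‖⁻¹ • v, by rw [norm_smul, norm_inv, norm_norm, inv_mul_cancel₀ hn.ne'], fun i => ?_⟩
    rw [real_inner_smul_right]
    exact mul_pos (inv_pos.2 hn) (hp i)

/-- A Busemann function drops along a segment that still points to the centre at its end. -/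
theorem drop {m : MF} {lg : V × V → V} {b : V → ℝ} {ν : V → V} (hy : YW m lg)
    (hb : IsB m lg b ν) (y v : V) (s : ℝ) (hv : ‖v‖ = 1) (hs : 0 < s)
    (h : 0 ≤ ⟪ν (m.Z s (y, v)).1, (m.Z s (y, v)).2⟫) : b (m.Z s (y, v)).1 < b y := by
  have hn : ‖(-1 : ℝ) • (m.Z s (y, v)).2‖ = 1 := by
    rw [norm_smul, hy.jac.norm, hv]; simp
  have h1 := hb.lb (m.Z s (y, v)).1 _ s hn
  rw [hy.jac.scale] at h1
  have h2 : m.Z (-1 * s) ((m.Z s (y, v)).1, (m.Z s (y, v)).2) = (y, v) := by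
    rw [Prod.mk.eta, ← hy.ok.add, show -1 * s + s = 0 by ring, hy.ok.zero]
  rw [h2, real_inner_smul_right] at h1
  have h3 : 1 < cosh s := one_lt_cosh.2 hs.ne'
  have h4 : 0 < sinh s := sinh_pos_iff.2 hs
  have h5 := exp_pos (b (m.Z s (y, v)).1)
  have h6 := mul_nonneg h h4.le
  refine exp_lt_exp.1 (lt_of_lt_of_le ?_ h1)
  nlinarith

/-- Balls are compact. -/
theorem ball_cpt {m : MF} {lg : V × V → V} (hy : YW m lg) (y : V) (ρ : ℝ) :
    ∃ K : Set V, IsCompact K ∧ ∀ z, ‖lg (y, z)‖ ≤ ρ → z ∈ K := by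
  have hc : Continuous fun b : V => (m.Z 1 (y, b)).1 :=
    (hy.ok.cZ.continuous.comp (f := fun b : V => ((1 : ℝ), y, b)) (by fun_prop)).fst
  refine ⟨_, (isCompact_closedBall (0 : V) ρ).image hc, fun z hz => ⟨lg (y, z), ?_, hy.had.ex y z⟩⟩
  simpa using hz

/-- The centre. -/
theorem jung : OnH fun _ _ _ _ _ A => ∀ g : ℝ, 2 * dm / (dm + 1) < g → ∀ x,
    ∃ y, y ∈ A.C (log g / 2) x := by
  intro m lg dX P _ A hF hG hH g hg x
  have hd : (0 : ℝ) < dm + 1 := by positivity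
  have hg0 : 0 < g := lt_of_le_of_lt (by positivity) hg
  obtain ⟨e, he⟩ := ex_unit
  obtain ⟨p₀, hp₀, -⟩ := hG.onto x e e he
  set K : Set P := {p | A.pr p = x} with hK
  have hKc : IsCompact K := hF.cpt x
  set D : V → ℝ := fun y => sSup ((fun p => A.β p y) '' K) with hD
  have hcp : ∀ y, Continuous fun p => A.β p y := fun y =>
    hF.cont.comp (f := fun p : P => (p, y)) (by fun_prop)
  have hDc : Continuous D :=
    hKc.continuous_sSup (f := fun y p => A.β p y) (hF.cont.comp continuous_swap)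
  have hle : ∀ y p, A.pr p = x → A.β p y ≤ D y := fun y p hp =>
    le_csSup (hKc.image (hcp y)).bddAbove ⟨p, hp, rfl⟩
  have hat : ∀ y, ∃ p, A.pr p = x ∧ D y = A.β p y := fun y => by
    obtain ⟨p, hp, h⟩ := hKc.exists_sSup_image_eq ⟨p₀, hp₀⟩ (hcp y).continuousOn
    exact ⟨p, hp, h⟩
  obtain ⟨B, hB, hB2⟩ := ball_cpt hF.yw (A.ft p₀) (D e + 1)
  have hin : ∀ z, D z ≤ D e → z ∈ B := fun z hz =>
    hB2 z (hG.near p₀ z (D e) fun p hp => (hle z p (hp.trans hp₀)).trans hz)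
  obtain ⟨y, -, hmin⟩ := hB.exists_isMinOn ⟨e, hin e le_rfl⟩ hDc.continuousOn
  have hm : ∀ z, D y ≤ D z := fun z => by
    by_cases h : D z ≤ D e
    · exact hmin (hin z h)
    · exact (hmin (hin e le_rfl)).trans (not_le.1 h).le
  by_contra hno
  have hr : log g / 2 < D y := by
    by_contra h
    exact hno ⟨y, fun p hp => (hle y p hp).trans (not_lt.1 h)⟩
  obtain ⟨v, hv, hpos⟩ := half (ι := {p // A.pr p = x ∧ log g / 2 ≤ A.β p y})
    (fun p => A.ν p.1 y) (2 / g) (fun p => (hF.isb p.1).unit y) (fun p q => by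
      have h1 := hH.gr2 p.1 q.1 y (p.2.1.trans q.2.1.symm)
      have h2 : g ≤ exp (A.β p.1 y) * exp (A.β q.1 y) := by
        rw [← exp_add, ← log_le_iff_le_exp hg0]; linarith [p.2.2, q.2.2]
      have h3 : ⟪A.ν p.1 y, A.ν q.1 y⟫ ≤ 1 := by
        have := real_inner_le_norm (A.ν p.1 y) (A.ν q.1 y)
        rwa [(hF.isb _).unit, (hF.isb _).unit, mul_one] at this
      rw [le_div_iff₀ hg0]; nlinarith) (by
      rw [div_lt_iff₀ hd] at hg
      rw [← mul_div_assoc, div_lt_iff₀ hg0]; nlinarith)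
  have hZ : Continuous fun s : ℝ => m.Z s (y, v) :=
    hF.yw.ok.cZ.continuous.comp (f := fun s : ℝ => (s, y, v)) (by fun_prop)
  have c1 : Continuous fun q : ℝ × P => A.β q.2 (m.Z q.1 (y, v)).1 :=
    hF.cont.comp (f := fun q : ℝ × P => (q.2, (m.Z q.1 (y, v)).1))
      (continuous_snd.prodMk (hZ.comp continuous_fst).fst)
  have c2 : Continuous fun q : ℝ × P => ⟪A.ν q.2 (m.Z q.1 (y, v)).1, (m.Z q.1 (y, v)).2⟫ :=
    (hH.cn.comp (f := fun q : ℝ × P => (q.2, (m.Z q.1 (y, v)).1))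
      (continuous_snd.prodMk (hZ.comp continuous_fst).fst)).inner (hZ.comp continuous_fst).snd
  have hev : ∀ᶠ s in 𝓝 (0 : ℝ), ∀ p ∈ K, A.β p (m.Z s (y, v)).1 < log g / 2 ∨
      0 < ⟪A.ν p (m.Z s (y, v)).1, (m.Z s (y, v)).2⟫ := by
    refine hKc.eventually_forall_of_forall_eventually fun p hp => ?_
    by_cases h : log g / 2 ≤ A.β p y
    · have h1 : 0 < ⟪A.ν p (m.Z 0 (y, v)).1, (m.Z 0 (y, v)).2⟫ := by
        rw [hF.yw.ok.zero]; exact hpos ⟨p, hp, h⟩
      exact ((c2.tendsto (0, p)).eventually (lt_mem_nhds h1)).mono fun q hq => Or.inr hq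
    · have h1 : A.β p (m.Z 0 (y, v)).1 < log g / 2 := by
        rw [hF.yw.ok.zero]; exact not_le.1 h
      exact ((c1.tendsto (0, p)).eventually (gt_mem_nhds h1)).mono fun q hq => Or.inl hq
  obtain ⟨s, hs, hs0⟩ := ((hev.filter_mono (nhdsWithin_le_nhds (s := Ioi 0))).and
    self_mem_nhdsWithin).exists
  obtain ⟨p, hp, hp2⟩ := hat (m.Z s (y, v)).1
  have h1 := hm (m.Z s (y, v)).1
  rcases hs p hp with h | h
  · linarith
  · have h2 := drop hF.yw (hF.isb p) y v s hv hs0 h.le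
    linarith [hle y p hp]

end Pool.Agent.MP_3ee8cb_gt.DRK
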