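import Mathlib

/-! The bound on the factor of a maximiser near a centre. -/

namespace Pool.Agent.MP_3ee8cb_gt.DRK

open Real
open scoped RealInnerProductSpace

variable {E : Type} [NormedAddCommGroup E] [InnerProductSpace ℝ E]

theorem cb_core {w a a₀ : E} {X B S g : ℝ} (hw : ‖w‖ = 1) (hX : ‖a‖ ≤ X) (hB : 0 ≤ B)
    (hg : 1 ≤ g) (hS : ‖a₀‖ ≤ S)
    (H : X * √(1 + ‖a₀‖ ^ 2) - ⟪a, a₀⟫ + ⟪a, w⟫ * ⟪a₀, w⟫ ≤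
      B * (g * √(1 + ⟪a₀, w⟫ ^ 2) - (g - 1) * ⟪a₀, w⟫)) :
    X ≤ (g + (g - 1) ^ 2 / (2 * g)) * (√(1 + S ^ 2) + S) * B := by
  have pr : ∀ u v : E, ⟪u - ⟪u, w⟫ • w, v - ⟪v, w⟫ • w⟫ = ⟪u, v⟫ - ⟪u, w⟫ * ⟪v, w⟫ := by
    intro u v
    simp only [inner_sub_left, inner_sub_right, real_inner_smul_left, real_inner_smul_right,
      real_inner_self_eq_norm_sq, hw, real_inner_comm v w]
    ring
  have nr : ∀ u : E, ‖u - ⟪u, w⟫ • w‖ ^ 2 = ‖u‖ ^ 2 - ⟪u, w⟫ ^ 2 := fun u => by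
    rw [← real_inner_self_eq_norm_sq, pr, real_inner_self_eq_norm_sq, sq ⟪u, w⟫]
  have le : ∀ u : E, ‖u - ⟪u, w⟫ • w‖ ≤ ‖u‖ := fun u =>
    abs_le_of_sq_le_sq' (by rw [nr]; nlinarith [sq_nonneg ⟪u, w⟫]) (norm_nonneg _) |>.2
  have c1 := real_inner_le_norm (a - ⟪a, w⟫ • w) (a₀ - ⟪a₀, w⟫ • w)
  have c2 := mul_le_mul_of_nonneg_right ((le a).trans hX) (norm_nonneg (a₀ - ⟪a₀, w⟫ • w))
  have n0 := nr a₀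
  have l0 := (le a₀).trans hS
  have p0 := norm_nonneg (a₀ - ⟪a₀, w⟫ • w)
  rw [pr] at c1
  have x2 : √(1 + ‖a₀‖ ^ 2) ^ 2 = 1 + ‖a₀‖ ^ 2 := sq_sqrt (by positivity)
  have x1 : √(1 + ‖a₀‖ ^ 2) ≤ √(1 + S ^ 2) := sqrt_le_sqrt (by gcongr)
  have x0 := sqrt_nonneg (1 + ‖a₀‖ ^ 2)
  have b1 : √(1 + ⟪a₀, w⟫ ^ 2) ≤ 1 + ⟪a₀, w⟫ ^ 2 / 2 :=
    sqrt_le_iff.2 ⟨by positivity, by nlinarith [sq_nonneg (⟪a₀, w⟫ ^ 2)]⟩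
  generalize √(1 + ⟪a₀, w⟫ ^ 2) = B₀ at *
  generalize √(1 + ‖a₀‖ ^ 2) = X₀ at *
  generalize √(1 + S ^ 2) = L at *
  generalize ‖a₀ - ⟪a₀, w⟫ • w‖ = y at *
  generalize ⟪a₀, w⟫ = s at *
  have g0 : 0 < g := one_pos.trans_le hg
  have k0 : 0 ≤ (g - 1) ^ 2 / (2 * g) := by positivity
  have k1 : -((g - 1) * s) ≤ g * s ^ 2 / 2 + (g - 1) ^ 2 / (2 * g) := by
    have : g * s ^ 2 / 2 + (g - 1) ^ 2 / (2 * g) + (g - 1) * s =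
        (g * s + (g - 1)) ^ 2 / (2 * g) := by
      field_simp
      ring
    have h : 0 ≤ (g * s + (g - 1)) ^ 2 / (2 * g) := by positivity
    linarith
  generalize (g - 1) ^ 2 / (2 * g) = k at *
  have k2 : g * B₀ - (g - 1) * s ≤ (g + k) * (1 + s ^ 2) := by
    nlinarith [mul_le_mul_of_nonneg_left b1 g0.le, mul_nonneg k0 (sq_nonneg s)]
  have k3 : X * (X₀ - y) ≤ B * ((g + k) * (1 + s ^ 2)) := by
    nlinarith [mul_le_mul_of_nonneg_left k2 hB]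
  have k4 := mul_le_mul k3 (add_le_add x1 l0) (add_nonneg x0 p0) (by positivity)
  have k5 : X * (X₀ - y) * (X₀ + y) = X * (1 + s ^ 2) := by
    have : (X₀ - y) * (X₀ + y) = 1 + s ^ 2 := by nlinarith
    rw [mul_assoc, this]
  refine le_of_mul_le_mul_right ?_ (by positivity : 0 < 1 + s ^ 2)
  linarith

theorem cbF {w a a₀ : E} {S r : ℝ} (hw : ‖w‖ = 1) (hr : 0 ≤ r) (hS : ‖a₀‖ ≤ S)
    (H : √(1 + ‖a‖ ^ 2) * √(1 + ‖a₀‖ ^ 2) - ⟪a, a₀⟫ ≤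
      cosh (arsinh ⟪a, w⟫ - arsinh ⟪a₀, w⟫ + 2 * r)) :
    √(1 + ‖a‖ ^ 2) ≤ (exp (2 * r) + (exp (2 * r) - 1) ^ 2 / (2 * exp (2 * r))) *
      (√(1 + S ^ 2) + S) * √(1 + ⟪a, w⟫ ^ 2) := by
  have hg : 1 ≤ exp (2 * r) := one_le_exp (by linarith)
  refine cb_core hw (le_sqrt_of_sq_le (by linarith)) (sqrt_nonneg _) hg hS ?_
  have en : ∀ s : ℝ, exp (-arsinh s) = √(1 + s ^ 2) - s := fun s => by
    rw [← arsinh_neg, exp_arsinh, neg_sq]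
    ring
  have ab : ∀ s : ℝ, |s| ≤ √(1 + s ^ 2) := fun s => abs_le_sqrt (by linarith)
  rw [cosh_eq, neg_add, exp_add, exp_add, neg_sub, sub_eq_add_neg (arsinh _),
    sub_eq_add_neg (arsinh _), exp_add, exp_add, en, en, exp_arsinh, exp_arsinh, exp_neg] at H
  have q := abs_le.1 (ab ⟪a, w⟫)
  have q0 := abs_le.1 (ab ⟪a₀, w⟫)
  have i1 : (exp (2 * r))⁻¹ ≤ 1 := inv_le_one_of_one_le₀ hg
  have i2 : 2 ≤ exp (2 * r) + (exp (2 * r))⁻¹ := by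
    have := mul_inv_cancel₀ (exp_pos (2 * r)).ne'
    nlinarith
  generalize (exp (2 * r))⁻¹ = i at *
  generalize exp (2 * r) = g at *
  generalize √(1 + ⟪a₀, w⟫ ^ 2) = B₀ at *
  generalize √(1 + ⟪a, w⟫ ^ 2) = B at *
  have k : 0 ≤ (g - i) * B₀ - (g - 2 + i) * ⟪a₀, w⟫ := by
    nlinarith [mul_nonneg (sub_nonneg.2 i2) (sub_nonneg.2 q0.2),
      mul_nonneg (sub_nonneg.2 i1) (by linarith : 0 ≤ B₀)]
  nlinarith [mul_nonneg (sub_nonneg.2 q.2) k]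

theorem cbI {w ν a₀ : E} {S r f : ℝ} (hw : ‖w‖ = 1) (hν : ‖ν‖ = 1) (hr : 0 ≤ r) (hS : ‖a₀‖ ≤ S)
    (ht : 0 ≤ ⟪ν, w⟫) (H1 : exp (arsinh ⟪a₀, w⟫ - r) ≤ f * ⟪ν, w⟫)
    (H2 : f * (√(1 + ‖a₀‖ ^ 2) - ⟪ν, a₀⟫) ≤ exp r) :
    1 ≤ (exp (2 * r) + (exp (2 * r) - 1) ^ 2 / (2 * exp (2 * r))) *
      (√(1 + S ^ 2) + S) * ⟪ν, w⟫ := by
  have hg : 1 ≤ exp (2 * r) := one_le_exp (by linarith)
  refine cb_core (a := ν) hw hν.le ht hg hS ?_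
  have en : exp (-arsinh ⟪a₀, w⟫) = √(1 + ⟪a₀, w⟫ ^ 2) - ⟪a₀, w⟫ := by
    rw [← arsinh_neg, exp_arsinh, neg_sq]
    ring
  have p : 0 ≤ √(1 + ‖a₀‖ ^ 2) - ⟪ν, a₀⟫ := by
    have h1 := real_inner_le_norm ν a₀
    have h2 : ‖a₀‖ ≤ √(1 + ‖a₀‖ ^ 2) := le_sqrt_of_sq_le (by linarith)
    rw [hν, one_mul] at h1
    linarith
  have e0 := (exp_pos (r - arsinh ⟪a₀, w⟫)).le
  have e1 : exp (arsinh ⟪a₀, w⟫ - r) * exp (r - arsinh ⟪a₀, w⟫) = 1 := by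
    rw [← exp_add]
    simp
  have e2 : exp r * exp (r - arsinh ⟪a₀, w⟫) =
      exp (2 * r) * (√(1 + ⟪a₀, w⟫ ^ 2) - ⟪a₀, w⟫) := by
    rw [← en, ← exp_add, ← exp_add]
    ring_nf
  have h1 := mul_le_mul_of_nonneg_right (mul_le_mul_of_nonneg_right H1 p) e0
  have h2 := mul_le_mul_of_nonneg_right (mul_le_mul_of_nonneg_right H2 ht) e0
  have h3 : exp (arsinh ⟪a₀, w⟫ - r) * (√(1 + ‖a₀‖ ^ 2) - ⟪ν, a₀⟫) * exp (r - arsinh ⟪a₀, w⟫) =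
      √(1 + ‖a₀‖ ^ 2) - ⟪ν, a₀⟫ := by rw [mul_right_comm, e1, one_mul]
  rw [mul_right_comm (exp r), e2] at h2
  nlinarith

end Pool.Agent.MP_3ee8cb_gt.DRK
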