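import Pool.Agent.MP_3ee8cb_gt.DZJ.Shell

/-! The mean over directions of a quotient of two forms in a plane. -/

namespace Pool.Agent.MP_3ee8cb_gt.DRK

open Set MeasureTheory CR Real DZJ
open scoped RealInnerProductSpace

/-- The quotient. -/
noncomputable def Fq (A B x y : ℝ) : ℝ := (x ^ 2 + y ^ 2) ^ 2 / (A ^ 2 * x ^ 2 + B ^ 2 * y ^ 2)

theorem Fq_bd {A B : ℝ} (hA : 0 < A) (hB : 0 < B) (x y : ℝ) :
    ‖Fq A B x y‖ ≤ (x ^ 2 + y ^ 2) * ((A ^ 2)⁻¹ + (B ^ 2)⁻¹) := by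
  unfold Fq
  rw [Real.norm_of_nonneg (by positivity)]
  refine div_le_of_le_mul₀ (by positivity) (by positivity) ?_
  have h : x ^ 2 + y ^ 2 ≤ ((A ^ 2)⁻¹ + (B ^ 2)⁻¹) * (A ^ 2 * x ^ 2 + B ^ 2 * y ^ 2) := by
    have e : ((A ^ 2)⁻¹ + (B ^ 2)⁻¹) * (A ^ 2 * x ^ 2 + B ^ 2 * y ^ 2) = x ^ 2 + y ^ 2 +
        ((A ^ 2)⁻¹ * B ^ 2 * y ^ 2 + (B ^ 2)⁻¹ * A ^ 2 * x ^ 2) := by
      field_simp
      ring
    rw [e]
    exact le_add_of_nonneg_right (by positivity)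
  rw [sq (x ^ 2 + y ^ 2), mul_assoc]
  exact mul_le_mul_of_nonneg_left h (by positivity)

theorem form_pos {A B x y : ℝ} (hA : 0 < A) (hB : 0 < B) (h : 0 < x ^ 2 + y ^ 2) :
    0 < A * x ^ 2 + B * y ^ 2 := by
  rcases (sq_nonneg x).eq_or_lt with h1 | h1
  · rw [← h1] at h ⊢
    rw [zero_add] at h
    positivity
  · positivity

/-- The mean over a circle. -/
theorem circle {A B : ℝ} (hA : 0 < A) (hB : 0 < B) (X Y : ℝ) :
    ∫ t in (0 : ℝ)..π, Fq A B (cos t * X + sin t * Y) (sin t * X - cos t * Y) =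
      π / (A * B) * (X ^ 2 + Y ^ 2) := by
  have hr : ∀ t, (cos t * X + sin t * Y) ^ 2 + (sin t * X - cos t * Y) ^ 2 = X ^ 2 + Y ^ 2 :=
    fun t => by linear_combination (X ^ 2 + Y ^ 2) * sin_sq_add_cos_sq t
  rcases (by positivity : 0 ≤ X ^ 2 + Y ^ 2).eq_or_lt with h0 | h0
  · simp only [Fq, hr, ← h0]
    simp
  have hd : ∀ t, HasDerivAt (fun t => (X ^ 2 + Y ^ 2) / (A * B) * (t +
      arctan ((B - A) * ((cos t * X + sin t * Y) * (sin t * X - cos t * Y)) /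
        (A * (cos t * X + sin t * Y) ^ 2 + B * (sin t * X - cos t * Y) ^ 2))))
      (Fq A B (cos t * X + sin t * Y) (sin t * X - cos t * Y)) t := fun t => by
    have hx : HasDerivAt (fun t => cos t * X + sin t * Y) (-(sin t * X - cos t * Y)) t :=
      (((hasDerivAt_cos t).mul_const X).fun_add ((hasDerivAt_sin t).mul_const Y)).congr_deriv
        (by ring)
    have hy : HasDerivAt (fun t => sin t * X - cos t * Y) (cos t * X + sin t * Y) t :=
      (((hasDerivAt_sin t).mul_const X).fun_sub ((hasDerivAt_cos t).mul_const Y)).congr_deriv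
        (by ring)
    have h1 := hr t
    rw [← h1] at h0
    have p1 := form_pos hA hB h0
    have p2 := form_pos (pow_pos hA 2) (pow_pos hB 2) h0
    refine (((hasDerivAt_id' t).fun_add ((((hx.fun_mul hy).const_mul (B - A)).fun_div
      (((hx.fun_pow 2).const_mul A).fun_add ((hy.fun_pow 2).const_mul B))
        p1.ne').arctan)).const_mul ((X ^ 2 + Y ^ 2) / (A * B))).congr_deriv ?_
    rw [← h1, Fq]
    generalize cos t * X + sin t * Y = x at *
    generalize sin t * X - cos t * Y = y at *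
    have e : 1 + ((B - A) * (x * y) / (A * x ^ 2 + B * y ^ 2)) ^ 2 =
        (x ^ 2 + y ^ 2) * (A ^ 2 * x ^ 2 + B ^ 2 * y ^ 2) / (A * x ^ 2 + B * y ^ 2) ^ 2 := by
      field_simp
      ring
    rw [e]
    push_cast
    have p3 : x ^ 2 * A + y ^ 2 * B ≠ 0 := by linarith
    have p4 : x ^ 2 * A ^ 2 + y ^ 2 * B ^ 2 ≠ 0 := by linarith
    have p5 : x ^ 2 * A + B * y ^ 2 ≠ 0 := by linarith
    have p6 : x ^ 2 * A ^ 2 + B ^ 2 * y ^ 2 ≠ 0 := by linarith
    field_simp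
    ring
  have hc : Continuous fun t => Fq A B (cos t * X + sin t * Y) (sin t * X - cos t * Y) := by
    unfold Fq
    refine Continuous.div (by fun_prop) (by fun_prop) fun t => ?_
    exact (form_pos (pow_pos hA 2) (pow_pos hB 2) (by rwa [hr])).ne'
  rw [intervalIntegral.integral_eq_sub_of_hasDerivAt (fun t _ => hd t) (hc.intervalIntegrable _ _)]
  simp only [cos_pi, sin_pi, cos_zero, sin_zero, zero_mul, add_zero, zero_sub, neg_mul, one_mul,
    neg_neg, mul_neg, neg_sq, zero_add]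
  ring

variable {n : ℕ}

theorem in_le {a : E n} (ha : ‖a‖ = 1) (w : E n) : ⟪‖w‖⁻¹ • w, a⟫ ^ 2 ≤ 1 := by
  have h := abs_real_inner_le_norm (‖w‖⁻¹ • w) a
  rw [ha, mul_one] at h
  rw [← sq_abs]
  exact pow_le_one₀ (abs_nonneg _) (h.trans (hat_le w))

theorem plane_int (μ : Measure (E n)) [IsFiniteMeasure μ] {a b : E n} (ha : ‖a‖ = 1)
    (hb : ‖b‖ = 1) {A B : ℝ} (hA : 0 < A) (hB : 0 < B) :
    Integrable (fun w : E n => Fq A B ⟪‖w‖⁻¹ • w, a⟫ ⟪‖w‖⁻¹ • w, b⟫) μ := by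
  refine Integrable.of_bound (Measurable.aestronglyMeasurable (by unfold Fq; fun_prop))
    (2 * ((A ^ 2)⁻¹ + (B ^ 2)⁻¹)) (.of_forall fun w => (Fq_bd hA hB _ _).trans ?_)
  exact mul_le_mul_of_nonneg_right (by linarith [in_le ha w, in_le hb w]) (by positivity)

/-- The mean over directions. -/
theorem plane (μ : Measure (E n)) [IsFiniteMeasure μ]
    (hinv : ∀ R : E n ≃ₗᵢ[ℝ] E n, MeasurePreserving R μ μ)
    (hiso : ∀ a b : E n, ∫ w, ⟪‖w‖⁻¹ • w, a⟫ * ⟪‖w‖⁻¹ • w, b⟫ ∂μ = ⟪a, b⟫) {a b : E n}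
    (ha : ‖a‖ = 1) (hb : ‖b‖ = 1) (hab : ⟪a, b⟫ = 0) {A B : ℝ} (hA : 0 < A) (hB : 0 < B) :
    ∫ w, Fq A B ⟪‖w‖⁻¹ • w, a⟫ ⟪‖w‖⁻¹ • w, b⟫ ∂μ = 2 / (A * B) := by
  have aa : ⟪a, a⟫ = 1 := by rw [real_inner_self_eq_norm_sq, ha, one_pow]
  have bb : ⟪b, b⟫ = 1 := by rw [real_inner_self_eq_norm_sq, hb, one_pow]
  have ba : ⟪b, a⟫ = 0 := by rw [real_inner_comm, hab]
  set f : ℝ → E n → ℝ := fun t w => Fq A B (cos t * ⟪‖w‖⁻¹ • w, a⟫ + sin t * ⟪‖w‖⁻¹ • w, b⟫)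
    (sin t * ⟪‖w‖⁻¹ • w, a⟫ - cos t * ⟪‖w‖⁻¹ • w, b⟫) with hf
  have h1 : ∀ t, ∫ w, f t w ∂μ = ∫ w, Fq A B ⟪‖w‖⁻¹ • w, a⟫ ⟪‖w‖⁻¹ • w, b⟫ ∂μ := fun t => by
    set u : E n := cos (t / 2) • a + sin (t / 2) • b with hu
    have ua : ⟪u, a⟫ = cos (t / 2) := by
      simp only [hu, inner_add_left, real_inner_smul_left, aa, ba, mul_one, mul_zero, add_zero]
    have ub : ⟪u, b⟫ = sin (t / 2) := by
      simp only [hu, inner_add_left, real_inner_smul_left, bb, hab, mul_one, mul_zero, zero_add]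
    have uv : ∀ v, ⟪u, v⟫ = cos (t / 2) * ⟪v, a⟫ + sin (t / 2) * ⟪v, b⟫ := fun v => by
      rw [real_inner_comm, hu, inner_add_right, real_inner_smul_right, real_inner_smul_right]
    have uu : ‖u‖ ^ 2 = 1 := by
      rw [← real_inner_self_eq_norm_sq, uv, ua, ub]
      linear_combination sin_sq_add_cos_sq (t / 2)
    have c2 : cos t = 2 * cos (t / 2) ^ 2 - 1 := by rw [← cos_two_mul]; congr 1; ring
    have s2 : sin t = 2 * sin (t / 2) * cos (t / 2) := by rw [← sin_two_mul]; congr 1; ring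
    let R := (ℝ ∙ u).reflection
    have hR : ∀ v c, ⟪R v, c⟫ = 2 * ⟪u, v⟫ * ⟪u, c⟫ - ⟪v, c⟫ := fun v c => by
      have h := Submodule.reflection_singleton_apply (𝕜 := ℝ) u v
      simp only [RCLike.ofReal_real_eq_id, id_eq, uu, div_one] at h
      rw [show R v = _ from h, inner_sub_left, two_smul, inner_add_left, real_inner_smul_left]
      ring
    rw [← (hinv R).integral_comp R.toHomeomorph.measurableEmbedding
      fun w => Fq A B ⟪‖w‖⁻¹ • w, a⟫ ⟪‖w‖⁻¹ • w, b⟫]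
    refine integral_congr_ae (.of_forall fun w => ?_)
    simp only [hf, LinearIsometryEquiv.norm_map, ← map_smul, hR, ua, ub]
    rw [uv, c2, s2]
    congr 1
    · ring
    · linear_combination (-2 * ⟪‖w‖⁻¹ • w, b⟫) * sin_sq_add_cos_sq (t / 2)
  have h2 : Integrable (Function.uncurry f) ((volume.restrict (uIoc 0 π)).prod μ) := by
    have : IsFiniteMeasure (volume.restrict (uIoc (0 : ℝ) π)) :=
      ⟨by rw [Measure.restrict_apply_univ, volume_uIoc]; exact ENNReal.ofReal_lt_top⟩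
    refine Integrable.of_bound (Measurable.aestronglyMeasurable (by
      simp only [hf, Function.uncurry_def, Fq]; fun_prop))
      (2 * ((A ^ 2)⁻¹ + (B ^ 2)⁻¹)) (.of_forall fun q => (Fq_bd hA hB _ _).trans ?_)
    refine mul_le_mul_of_nonneg_right ?_ (by positivity)
    have e1 := in_le ha q.2
    have e2 := in_le hb q.2
    have e3 := sin_sq_add_cos_sq q.1
    generalize ⟪‖q.2‖⁻¹ • q.2, a⟫ = X at *
    generalize ⟪‖q.2‖⁻¹ • q.2, b⟫ = Y at *
    have e4 : (cos q.1 * X + sin q.1 * Y) ^ 2 + (sin q.1 * X - cos q.1 * Y) ^ 2 =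
        X ^ 2 + Y ^ 2 := by linear_combination (X ^ 2 + Y ^ 2) * e3
    linarith
  have h3 := intervalIntegral_integral_swap h2
  simp only [h1, intervalIntegral.integral_const, sub_zero, smul_eq_mul] at h3
  simp only [hf, circle hA hB, integral_const_mul, sq] at h3
  rw [integral_add (hat_int μ a a) (hat_int μ b b), hiso, hiso, aa, bb] at h3
  refine mul_left_cancel₀ pi_pos.ne' (h3.trans ?_)
  ring

end Pool.Agent.MP_3ee8cb_gt.DRK
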